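import Mathlib

/-!
# Restrictions of cuspidal functions: the unipotent variety of `PGL₂` over `𝔽_q`, `q ≡ 1 mod 4`
-/

namespace Pool.Agent.Results.MP_21a573_al.PglUnipotent

open Matrix

/-- The group `PGL₂(F)`. -/
abbrev PGL (F : Type) [Field F] : Type := Matrix.ProjGenLinGroup (Fin 2) F

/-- The matrix `(1 t; 0 1)`. -/
def uGL (F : Type) [Field F] (t : F) : GL (Fin 2) F where
  val := !![1, t; 0, 1]
  inv := !![1, -t; 0, 1]
  val_inv := by simp [Matrix.one_fin_two]
  inv_val := by simp [Matrix.one_fin_two]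

/-- The element of `PGL₂(F)` given by the matrix `(1 t; 0 1)`. -/
def u (F : Type) [Field F] (t : F) : PGL F := ProjGenLinGroup.mk (uGL F t)

/-- The point `g · h (1 t; 0 1) h⁻¹` of the coset `g U`, where `U = {h (1 t; 0 1) h⁻¹ : t ∈ F}` is
the unipotent radical of a Borel subgroup. -/
def cosetPt (F : Type) [Field F] (g h : PGL F) (t : F) : PGL F := g * (h * u F t * h⁻¹)

/-- Cuspidal functions on `PGL₂(F)`. -/
def Cuspidal (F : Type) [Field F] [Fintype F] (Φ : PGL F → ℂ) : Prop :=
  ∀ g h : PGL F, ∑ t : F, Φ (cosetPt F g h t) = 0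

/-- The homogeneous polynomial `P` in the matrix entries vanishes on the conjugacy class of `x`. -/
def VanishesOn (K : Type) [Field K] (x : PGL K) (P : MvPolynomial (Fin 2 × Fin 2) K) : Prop :=
  ∀ g : GL (Fin 2) K, IsConj x (ProjGenLinGroup.mk g) →
    MvPolynomial.eval (fun ij => g.val ij.1 ij.2) P = 0

/-- The `F`-points of the Zariski closure in `PGL₂` of the conjugacy class of `x`. -/
def Obar (F : Type) [Field F] (x : PGL (AlgebraicClosure F)) : Set (PGL F) :=
  {y | ∀ (d : ℕ) (P : MvPolynomial (Fin 2 × Fin 2) (AlgebraicClosure F)), P.IsHomogeneous d →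
    VanishesOn (AlgebraicClosure F) x P → ∀ g : GL (Fin 2) F, ProjGenLinGroup.mk g = y →
      MvPolynomial.eval (fun ij => algebraMap F (AlgebraicClosure F) (g.val ij.1 ij.2)) P = 0}

/-- The weak cuspidality condition for functions on `Obar`. -/
def Weak (F : Type) [Field F] [Fintype F] (x : PGL (AlgebraicClosure F))
    (f : Obar F x → ℂ) : Prop :=
  ∀ (g h : PGL F) (H : ∀ t, cosetPt F g h t ∈ Obar F x),
    ∑ t : F, f ⟨cosetPt F g h t, H t⟩ = 0

/-- `f` is the restriction of a cuspidal function. -/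
def IsRestriction (F : Type) [Field F] [Fintype F] (x : PGL (AlgebraicClosure F))
    (f : Obar F x → ℂ) : Prop :=
  ∃ Φ : PGL F → ℂ, Cuspidal F Φ ∧ ∀ y : Obar F x, f y = Φ y

section Closure

variable (F : Type) [Field F]

/-- An invertible matrix with given entries. -/
def mat (a b c d : F) (h : a * d - b * c ≠ 0) : GL (Fin 2) F :=
  Matrix.GeneralLinearGroup.mkOfDetNeZero !![a, b; c, d] (by rw [Matrix.det_fin_two_of]; exact h)

lemma mat_val (a b c d : F) (h : a * d - b * c ≠ 0) : (mat F a b c d h).val = !![a, b; c, d] :=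
  rfl

/-- `t² - 4 δ` for trace `t` and determinant `δ`. -/
def disc (g : Matrix (Fin 2) (Fin 2) F) : F := g.trace ^ 2 - 4 * g.det

lemma disc_smul (c : F) (g : Matrix (Fin 2) (Fin 2) F) : disc F (c • g) = c ^ 2 * disc F g := by
  unfold disc
  rw [Matrix.trace_smul, Matrix.det_smul, Fintype.card_fin, smul_eq_mul]
  ring

lemma mk_eq_iff (g g' : GL (Fin 2) F) :
    (ProjGenLinGroup.mk g : PGL F) = ProjGenLinGroup.mk g' ↔ ∃ c : F, c ≠ 0 ∧ g'.val = c • g.val := by
  rw [ProjGenLinGroup.mk_eq_mk_iff]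
  constructor
  · rintro ⟨v, rfl⟩
    refine ⟨v, v.ne_zero, ?_⟩
    rw [Units.val_mul]
    ext i j
    simp [Matrix.GeneralLinearGroup.scalar, mul_comm]
  · rintro ⟨c, hc, h⟩
    refine ⟨Units.mk0 c hc, ?_⟩
    apply Units.ext
    rw [Units.val_mul, h]
    ext i j
    simp [Matrix.GeneralLinearGroup.scalar, mul_comm]

lemma disc_conj (g h : GL (Fin 2) F) : disc F (h * g * h⁻¹ : GL (Fin 2) F).val = disc F g.val := by
  unfold disc
  rw [Units.val_mul, Units.val_mul, Matrix.trace_mul_comm, ← Matrix.mul_assoc,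
    Matrix.det_mul, Matrix.det_mul]
  have h1 : (h⁻¹ : GL (Fin 2) F).val * h.val = 1 := Units.inv_mul h
  have h2 : h.val.det * (h⁻¹ : GL (Fin 2) F).val.det = 1 := by
    rw [← Matrix.det_mul, Units.mul_inv, Matrix.det_one]
  rw [h1, one_mul]
  linear_combination -4 * g.val.det * h2

lemma uGL_val (t : F) : (uGL F t).val = !![1, t; 0, 1] := rfl

lemma eq_conj_of_mul {g h k : GL (Fin 2) F} {c : F} (hc : c ≠ 0)
    (H : (h * k : GL (Fin 2) F).val = c • (g * h : GL (Fin 2) F).val) :
    (ProjGenLinGroup.mk g : PGL F)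
      = ProjGenLinGroup.mk h * ProjGenLinGroup.mk k * (ProjGenLinGroup.mk h)⁻¹ := by
  have h1 : (ProjGenLinGroup.mk (g * h) : PGL F) = ProjGenLinGroup.mk (h * k) :=
    (mk_eq_iff F _ _).mpr ⟨c, hc, H⟩
  rw [map_mul, map_mul] at h1
  rw [← h1]
  group

lemma u_conj (t : F) (ht : t ≠ 0) :
    u F t = ProjGenLinGroup.mk (mat F t 0 0 1 (by simpa using ht)) * u F 1
      * (ProjGenLinGroup.mk (mat F t 0 0 1 (by simpa using ht)))⁻¹ := by
  apply eq_conj_of_mul F (c := 1) one_ne_zero
  rw [one_smul, Units.val_mul, Units.val_mul, mat_val, uGL_val, uGL_val]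
  ext i j
  fin_cases i <;> fin_cases j <;> simp [Matrix.mul_apply, Fin.sum_univ_two]

lemma disc_of (a b c d : F) : disc F !![a, b; c, d] = (a + d) ^ 2 - 4 * (a * d - b * c) := by
  unfold disc
  rw [Matrix.trace_fin_two_of, Matrix.det_fin_two_of]

lemma exists_conj (h2 : (2 : F) ≠ 0) (g : GL (Fin 2) F) (hd : disc F g.val = 0)
    (hns : ∀ c : F, g.val ≠ c • 1) :
    ∃ h : GL (Fin 2) F, (ProjGenLinGroup.mk g : PGL F)
      = ProjGenLinGroup.mk h * u F 1 * (ProjGenLinGroup.mk h)⁻¹ := by
  obtain ⟨a, b, c, d, hg⟩ : ∃ a b c d : F, g.val = !![a, b; c, d] :=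
    ⟨_, _, _, _, Matrix.eta_fin_two g.val⟩
  have hdet : a * d - b * c ≠ 0 := by
    have := (Matrix.isUnit_iff_isUnit_det _).mp g.isUnit
    rw [hg, Matrix.det_fin_two_of] at this
    exact this.ne_zero
  rw [hg, disc_of] at hd
  have hl : a + d ≠ 0 := by
    intro h0
    rw [h0] at hd
    have : (2 : F) * 2 * (a * d - b * c) = 0 := by linear_combination -hd
    rcases mul_eq_zero.mp this with h | h
    · exact (mul_ne_zero h2 h2) h
    · exact hdet h
  obtain ⟨l, hldef⟩ : ∃ l, l = (a + d) / 2 := ⟨_, rfl⟩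
  have hl0 : l ≠ 0 := by rw [hldef]; exact div_ne_zero hl h2
  have hl2 : a + d = 2 * l := by rw [hldef]; field_simp
  by_cases hc : c = 0
  · subst hc
    have had : a = d := by
      have : (a - d) ^ 2 = 0 := by linear_combination hd
      exact sub_eq_zero.mp (pow_eq_zero_iff (two_ne_zero) |>.mp this)
    subst had
    have ha : a ≠ 0 := by
      intro h0
      apply hdet
      rw [h0]; ring
    have hb : b ≠ 0 := by
      intro hb
      apply hns a
      rw [hg, hb]
      ext i j
      fin_cases i <;> fin_cases j <;> simp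
    refine ⟨mat F (b / a) 0 0 1 (by simpa using ⟨hb, ha⟩), ?_⟩
    apply eq_conj_of_mul F (c := a⁻¹) (inv_ne_zero ha)
    rw [Units.val_mul, Units.val_mul, mat_val, uGL_val, hg]
    ext i j
    fin_cases i <;> fin_cases j <;> simp [Matrix.mul_apply, Fin.sum_univ_two, ha] <;> field_simp
  · refine ⟨mat F ((a - d) / (2 * l)) 1 (c / l) 0 (by
      rw [mul_zero, zero_sub, one_mul]
      exact neg_ne_zero.mpr (div_ne_zero hc hl0)), ?_⟩
    apply eq_conj_of_mul F (c := l⁻¹) (inv_ne_zero hl0)
    rw [Units.val_mul, Units.val_mul, mat_val, uGL_val, hg]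
    have hbc : (a - d) ^ 2 = -4 * (b * c) := by linear_combination hd
    ext i j
    fin_cases i <;> fin_cases j <;> simp [Matrix.mul_apply, Fin.sum_univ_two]
    · field_simp
      apply mul_left_cancel₀ h2
      linear_combination (-1 : F) * hbc - (a - d) * hl2
    · field_simp
      linear_combination (-1 : F) * hl2
    · field_simp
      linear_combination (-1 : F) * hl2
    · rw [div_eq_inv_mul]

lemma disc_of_isConj (g : GL (Fin 2) F) (h : IsConj (u F 1) (ProjGenLinGroup.mk g)) :
    disc F g.val = 0 := by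
  rw [isConj_iff] at h
  obtain ⟨x, hx⟩ := h
  obtain ⟨k, rfl⟩ := ProjGenLinGroup.mk_surjective x
  have h1 : (ProjGenLinGroup.mk (k * uGL F 1 * k⁻¹) : PGL F) = ProjGenLinGroup.mk g := by
    rw [map_mul, map_mul, map_inv]
    exact hx
  obtain ⟨c, -, hc⟩ := (mk_eq_iff F _ _).mp h1
  rw [hc, disc_smul, disc_conj, uGL_val, disc_of]
  ring

end Closure

section Char

variable (F : Type) [Field F]

/-- The homogeneous polynomial defining the unipotent variety. -/
noncomputable def discPoly : MvPolynomial (Fin 2 × Fin 2) F :=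
  (MvPolynomial.X (0, 0) + MvPolynomial.X (1, 1)) ^ 2
    - MvPolynomial.C 4 * (MvPolynomial.X (0, 0) * MvPolynomial.X (1, 1)
      - MvPolynomial.X (0, 1) * MvPolynomial.X (1, 0))

lemma discPoly_hom : (discPoly F).IsHomogeneous 2 := by
  have hX : ∀ i : Fin 2 × Fin 2, (MvPolynomial.X i : MvPolynomial _ F).IsHomogeneous 1 :=
    fun i => MvPolynomial.isHomogeneous_X F i
  have h1 := ((hX (0, 0)).add (hX (1, 1))).pow 2
  have h2 := ((hX (0, 0)).mul (hX (1, 1))).sub ((hX (0, 1)).mul (hX (1, 0)))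
  have h3 := (MvPolynomial.isHomogeneous_C (Fin 2 × Fin 2) (4 : F)).mul h2
  exact h1.sub h3

lemma eval_discPoly (v : Fin 2 × Fin 2 → F) : MvPolynomial.eval v (discPoly F)
    = (v (0, 0) + v (1, 1)) ^ 2 - 4 * (v (0, 0) * v (1, 1) - v (0, 1) * v (1, 0)) := by
  simp [discPoly]

lemma disc_eq (g : Matrix (Fin 2) (Fin 2) F) :
    disc F g = (g 0 0 + g 1 1) ^ 2 - 4 * (g 0 0 * g 1 1 - g 0 1 * g 1 0) := by
  unfold disc
  rw [Matrix.trace_fin_two, Matrix.det_fin_two]

lemma map_disc {K : Type} [Field K] (φ : F →+* K) (M : Matrix (Fin 2) (Fin 2) F)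
    (M' : Matrix (Fin 2) (Fin 2) K) (h : ∀ i j, M' i j = φ (M i j)) :
    disc K M' = φ (disc F M) := by
  have h4 : φ (4 : F) = 4 := map_ofNat φ 4
  rw [disc_eq, disc_eq]
  simp only [h, map_sub, map_pow, map_add, map_mul, h4]

theorem mem_Obar_iff (h2 : (2 : F) ≠ 0) (g : GL (Fin 2) F) :
    ProjGenLinGroup.mk g ∈ Obar F (u (AlgebraicClosure F) 1) ↔ disc F g.val = 0 := by
  have hinj : Function.Injective (algebraMap F (AlgebraicClosure F)) :=
    (algebraMap F (AlgebraicClosure F)).injective
  have h2' : (2 : AlgebraicClosure F) ≠ 0 := by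
    intro h
    apply h2
    apply hinj
    rw [map_zero, map_ofNat]
    exact h
  constructor
  · intro h
    have h1 := h 2 (discPoly _) (discPoly_hom _) (by
      intro g' hg'
      rw [eval_discPoly, ← disc_eq]
      exact disc_of_isConj _ g' hg') g rfl
    rw [eval_discPoly] at h1
    apply hinj
    rw [map_zero, ← h1, ← map_disc F (algebraMap F (AlgebraicClosure F)) g.val
      (g.val.map (algebraMap F (AlgebraicClosure F))) (fun _ _ => rfl), disc_eq]
    rfl
  · intro h d P hP hvan g' hg'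
    have hd' : disc F g'.val = 0 := by
      obtain ⟨c, hc, hcg⟩ := (mk_eq_iff F _ _).mp hg'
      rw [hcg, disc_smul] at h
      rcases mul_eq_zero.mp h with h1 | h1
      · exact absurd (pow_eq_zero_iff (two_ne_zero) |>.mp h1) hc
      · exact h1
    by_cases hs : ∃ c : F, g'.val = c • 1
    · obtain ⟨c, hc⟩ := hs
      have hc0 : c ≠ 0 := by
        rintro rfl
        have := (Matrix.isUnit_iff_isUnit_det _).mp g'.isUnit
        rw [hc, zero_smul, Matrix.det_zero] at this
        exact not_isUnit_zero this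
      set c' := algebraMap F (AlgebraicClosure F) c with hc'
      have hc'0 : c' ≠ 0 := by
        rw [hc']
        exact (map_ne_zero_iff _ hinj).mpr hc0
      let q : Polynomial (AlgebraicClosure F) := MvPolynomial.aeval
        (fun ij : Fin 2 × Fin 2 => (!![Polynomial.C c', Polynomial.C c' * Polynomial.X;
          0, Polynomial.C c'] : Matrix (Fin 2) (Fin 2) (Polynomial (AlgebraicClosure F)))
            ij.1 ij.2) P
      have hq : ∀ t : AlgebraicClosure F, q.eval t = MvPolynomial.eval
          (fun ij : Fin 2 × Fin 2 => (!![c', c' * t; 0, c'] :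
            Matrix (Fin 2) (Fin 2) (AlgebraicClosure F)) ij.1 ij.2) P := by
        intro t
        have h1 := MvPolynomial.map_aeval (fun ij : Fin 2 × Fin 2 =>
          (!![Polynomial.C c', Polynomial.C c' * Polynomial.X;
          0, Polynomial.C c'] : Matrix (Fin 2) (Fin 2) (Polynomial (AlgebraicClosure F)))
            ij.1 ij.2) (Polynomial.evalRingHom t) P
        have h3 : (Polynomial.evalRingHom t).comp
            (algebraMap (AlgebraicClosure F) (Polynomial (AlgebraicClosure F)))
            = RingHom.id _ := by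
          ext x
          simp
        rw [h3] at h1
        show Polynomial.evalRingHom t _ = _
        rw [h1]
        show MvPolynomial.eval₂ (RingHom.id _) _ P = MvPolynomial.eval₂ (RingHom.id _) _ P
        congr 1
        funext ij
        obtain ⟨i, j⟩ := ij
        fin_cases i <;> fin_cases j <;> simp
      have hroot : ∀ t : AlgebraicClosure F, t ≠ 0 → q.eval t = 0 := by
        intro t ht
        rw [hq t]
        have hdet : c' * c' - (c' * t) * 0 ≠ 0 := by
          rw [mul_zero, sub_zero]; exact mul_ne_zero hc'0 hc'0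
        have h1 := hvan (mat _ c' (c' * t) 0 c' hdet) (by
          have h4 : (ProjGenLinGroup.mk (mat _ c' (c' * t) 0 c' hdet) : PGL (AlgebraicClosure F))
              = u _ t := by
            symm
            apply (mk_eq_iff _ _ _).mpr
            refine ⟨c', hc'0, ?_⟩
            rw [mat_val, uGL_val]
            ext i j
            fin_cases i <;> fin_cases j <;> simp
          rw [h4, u_conj _ t ht, isConj_iff]
          exact ⟨_, rfl⟩)
        exact h1
      have hq0 : q = 0 := by
        apply Polynomial.eq_zero_of_infinite_isRoot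
        have : Infinite (AlgebraicClosure F) := IsAlgClosed.instInfinite
        refine Set.Infinite.mono (s := {t | t ≠ 0}) (fun t ht => hroot t ht) ?_
        exact (Set.finite_singleton (0 : AlgebraicClosure F)).infinite_compl
      have h5 := hq 0
      rw [hq0, Polynomial.eval_zero] at h5
      rw [h5]
      have h8 : (fun ij : Fin 2 × Fin 2 => algebraMap F (AlgebraicClosure F) (g'.val ij.1 ij.2))
          = fun ij : Fin 2 × Fin 2 => (!![c', c' * 0; 0, c'] :
            Matrix (Fin 2) (Fin 2) (AlgebraicClosure F)) ij.1 ij.2 := by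
        funext ij
        obtain ⟨i, j⟩ := ij
        rw [hc]
        fin_cases i <;> fin_cases j <;> simp [c']
      rw [h8]
    · -- regular case
      let gK : GL (Fin 2) (AlgebraicClosure F) :=
        Matrix.GeneralLinearGroup.map (algebraMap F (AlgebraicClosure F)) g'
      have hgK : ∀ i j, gK.val i j = algebraMap F (AlgebraicClosure F) (g'.val i j) :=
        fun _ _ => rfl
      have hdK : disc (AlgebraicClosure F) gK.val = 0 := by
        rw [map_disc F (algebraMap F (AlgebraicClosure F)) g'.val gK.val hgK, hd', map_zero]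
      obtain ⟨k, hk⟩ := exists_conj _ h2' gK hdK (by
        intro c hcon
        apply hs
        refine ⟨g'.val 0 0, ?_⟩
        have e01 : algebraMap F (AlgebraicClosure F) (g'.val 0 1) = 0 := by
          have := congrFun (congrFun hcon 0) 1
          rw [hgK] at this
          rw [this]
          simp
        have e10 : algebraMap F (AlgebraicClosure F) (g'.val 1 0) = 0 := by
          have := congrFun (congrFun hcon 1) 0
          rw [hgK] at this
          rw [this]
          simp
        have e00 : algebraMap F (AlgebraicClosure F) (g'.val 0 0) = c := by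
          have := congrFun (congrFun hcon 0) 0
          rw [hgK] at this
          rw [this]
          simp
        have e11 : algebraMap F (AlgebraicClosure F) (g'.val 1 1) = c := by
          have := congrFun (congrFun hcon 1) 1
          rw [hgK] at this
          rw [this]
          simp
        have f01 : g'.val 0 1 = 0 := hinj (by rw [e01, map_zero])
        have f10 : g'.val 1 0 = 0 := hinj (by rw [e10, map_zero])
        have f11 : g'.val 1 1 = g'.val 0 0 := hinj (by rw [e11, e00])
        ext i j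
        fin_cases i <;> fin_cases j <;> simp [f01, f10, f11])
      have h7 := hvan gK (by rw [hk, isConj_iff]; exact ⟨_, rfl⟩)
      exact h7

end Char

section Sign

variable (F : Type) [Field F] [Fintype F] [DecidableEq F]

/-- The quadratic character of the determinant. -/
noncomputable def epsGL : GL (Fin 2) F →* ℤˣ :=
  (quadraticChar F).toUnitHom.comp Matrix.GeneralLinearGroup.det

lemma epsGL_val (g : GL (Fin 2) F) : ((epsGL F g : ℤˣ) : ℤ) = quadraticChar F g.val.det := rfl

lemma epsGL_center : Subgroup.center (GL (Fin 2) F) ≤ (epsGL F).ker := by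
  intro z hz
  rw [Matrix.GeneralLinearGroup.center_eq_range_scalar] at hz
  obtain ⟨v, rfl⟩ := hz
  rw [MonoidHom.mem_ker]
  apply Units.ext
  rw [epsGL_val]
  have h1 : (Matrix.GeneralLinearGroup.scalar (Fin 2) v).val.det = (v : F) ^ 2 := by
    show (Matrix.scalar (Fin 2) (v : F)).det = _
    rw [Matrix.scalar_apply, Matrix.det_diagonal]
    simp
  rw [h1, quadraticChar_sq_one' v.ne_zero]
  rfl

/-- The quadratic character of the determinant on `PGL₂`. -/
noncomputable def epsU : PGL F →* ℤˣ :=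
  (QuotientGroup.lift (Subgroup.center (GL (Fin 2) F)) (epsGL F) (epsGL_center F) :
    GL (Fin 2) F ⧸ Subgroup.center (GL (Fin 2) F) →* ℤˣ)

lemma epsU_mk (g : GL (Fin 2) F) : epsU F (ProjGenLinGroup.mk g) = epsGL F g := rfl

/-- Complex valued version. -/
noncomputable def eps (x : PGL F) : ℂ := (((epsU F x : ℤˣ) : ℤ) : ℂ)

lemma eps_mk (g : GL (Fin 2) F) : eps F (ProjGenLinGroup.mk g) = (quadraticChar F g.val.det : ℂ) :=
  rfl

lemma eps_mul (x y : PGL F) : eps F (x * y) = eps F x * eps F y := by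
  unfold eps
  rw [map_mul, Units.val_mul, Int.cast_mul]

lemma eps_sq (x : PGL F) : eps F x * eps F x = 1 := by
  unfold eps
  rcases Int.units_eq_one_or (epsU F x) with h | h <;> rw [h] <;> simp

lemma eps_inv (x : PGL F) : eps F x⁻¹ = eps F x := by
  unfold eps
  rcases Int.units_eq_one_or (epsU F x) with h | h <;> rw [map_inv, h] <;> simp

/-- If an element with `eps = -1` centralises `g`, an `eps`-equivariant function vanishes. -/
lemma vanish {Φ : PGL F → ℂ} (hΦ : ∀ k g, Φ (k * g * k⁻¹) = eps F k * Φ g) (g k : PGL F)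
    (hk : k * g * k⁻¹ = g) (he : eps F k = -1) : Φ g = 0 := by
  have h := hΦ k g
  rw [hk, he] at h
  have : (2 : ℂ) * Φ g = 0 := by linear_combination h
  simpa using this

lemma exists_nonsq (hF : ringChar F ≠ 2) : ∃ a : F, a ≠ 0 ∧ quadraticChar F a = -1 := by
  obtain ⟨a, ha⟩ := quadraticChar_exists_neg_one hF
  refine ⟨a, ?_, ha⟩
  rintro rfl
  rw [quadraticChar_zero] at ha
  exact absurd ha (by norm_num)

lemma exists_comm_one (hF : ringChar F ≠ 2) : ∃ k : PGL F, eps F k = -1 := by
  obtain ⟨a, ha, hq⟩ := exists_nonsq F hF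
  refine ⟨ProjGenLinGroup.mk (mat F a 0 0 1 (by simpa using ha)), ?_⟩
  rw [eps_mk, mat_val, Matrix.det_fin_two_of]
  simp [hq]

/-- A nonunipotent element commutes with an element with `eps = -1`. -/
lemma exists_comm (hF : ringChar F ≠ 2) (g : GL (Fin 2) F) (hd : disc F g.val ≠ 0) :
    ∃ k : PGL F, k * ProjGenLinGroup.mk g * k⁻¹ = ProjGenLinGroup.mk g ∧ eps F k = -1 := by
  obtain ⟨e, he, hq⟩ := exists_nonsq F hF
  have h2 : (2 : F) ≠ 0 := Ring.two_ne_zero hF
  have h4 : (4 : F) ≠ 0 := by
    have : (4 : F) = 2 * 2 := by norm_num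
    rw [this]; exact mul_ne_zero h2 h2
  obtain ⟨a, b, c, d, hg⟩ : ∃ a b c d : F, g.val = !![a, b; c, d] :=
    ⟨_, _, _, _, Matrix.eta_fin_two g.val⟩
  rw [hg, disc_of] at hd
  obtain ⟨D, hD⟩ : ∃ D, D = (a + d) ^ 2 - 4 * (a * d - b * c) := ⟨_, rfl⟩
  rw [← hD] at hd
  obtain ⟨x, y, hxy⟩ := FiniteField.exists_root_sum_quadratic
    (f := (Polynomial.X : Polynomial F) ^ 2)
    (g := Polynomial.C (-(D / 4)) * Polynomial.X ^ 2 + Polynomial.C (-e))
    (by rw [Polynomial.degree_X_pow]; rfl)
    (by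
      rw [Polynomial.degree_add_C]
      · rw [Polynomial.degree_C_mul_X_pow 2 (neg_ne_zero.mpr (div_ne_zero hd h4))]; rfl
      · rw [Polynomial.degree_C_mul_X_pow 2 (neg_ne_zero.mpr (div_ne_zero hd h4))]; norm_num)
    (FiniteField.odd_card_of_char_ne_two hF)
  simp only [Polynomial.eval_pow, Polynomial.eval_X, Polynomial.eval_add, Polynomial.eval_mul,
    Polynomial.eval_C] at hxy
  -- the element `(x - y tr / 2) + y g`
  obtain ⟨z, hz⟩ : ∃ z, z = x - y * (a + d) / 2 := ⟨_, rfl⟩
  have hdet : (z + y * a) * (z + y * d) - (y * b) * (y * c) = e := by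
    rw [hz]
    rw [hD] at hxy
    field_simp at hxy ⊢
    linear_combination hxy
  have hdet0 : (z + y * a) * (z + y * d) - (y * b) * (y * c) ≠ 0 := by rw [hdet]; exact he
  refine ⟨ProjGenLinGroup.mk (mat F (z + y * a) (y * b) (y * c) (z + y * d) hdet0), ?_, ?_⟩
  · have h1 : mat F (z + y * a) (y * b) (y * c) (z + y * d) hdet0 * g
        = g * mat F (z + y * a) (y * b) (y * c) (z + y * d) hdet0 := by
      apply Units.ext
      rw [Units.val_mul, Units.val_mul, mat_val, hg]
      ext i j
      fin_cases i <;> fin_cases j <;> simp [Matrix.mul_apply, Fin.sum_univ_two] <;> ring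
    rw [← map_mul, h1, map_mul]
    group
  · rw [eps_mk, mat_val, Matrix.det_fin_two_of, hdet, hq]
    simp

end Sign

section Main

variable (F : Type) [Field F] [Fintype F] [DecidableEq F]

lemma finite_PGL : Finite (PGL F) :=
  inferInstanceAs (Finite (GL (Fin 2) F ⧸ Subgroup.center (GL (Fin 2) F)))

open Classical in
/-- The equivariant function supported on the regular unipotent elements. -/
noncomputable def f0 [Fintype (PGL F)] (y : PGL F) : ℂ :=
  ∑ h : PGL F, if h * u F 1 * h⁻¹ = y then eps F h else 0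

lemma f0_conj [Fintype (PGL F)] (k y : PGL F) : f0 F (k * y * k⁻¹) = eps F k * f0 F y := by
  classical
  unfold f0
  rw [Finset.mul_sum]
  apply Fintype.sum_equiv (Equiv.mulLeft k⁻¹)
  intro h
  rw [Equiv.coe_mulLeft]
  have hiff : h * u F 1 * h⁻¹ = k * y * k⁻¹ ↔ k⁻¹ * h * u F 1 * (k⁻¹ * h)⁻¹ = y := by
    constructor
    · intro H
      calc k⁻¹ * h * u F 1 * (k⁻¹ * h)⁻¹ = k⁻¹ * (h * u F 1 * h⁻¹) * k := by group
        _ = y := by rw [H]; group
    · intro H
      rw [← H]
      group
  by_cases H : h * u F 1 * h⁻¹ = k * y * k⁻¹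
  · rw [if_pos H, if_pos (hiff.mp H), eps_mul, eps_inv, ← mul_assoc, eps_sq, one_mul]
  · rw [if_neg H, if_neg (fun h' => H (hiff.mpr h')), mul_zero]

lemma eps_centralizer (h : PGL F) (hh : h * u F 1 * h⁻¹ = u F 1) : eps F h = 1 := by
  obtain ⟨g, rfl⟩ := ProjGenLinGroup.mk_surjective h
  obtain ⟨a, b, c, d, hg⟩ : ∃ a b c d : F, g.val = !![a, b; c, d] :=
    ⟨_, _, _, _, Matrix.eta_fin_two g.val⟩
  have hdet : a * d - b * c ≠ 0 := by
    have := (Matrix.isUnit_iff_isUnit_det _).mp g.isUnit
    rw [hg, Matrix.det_fin_two_of] at this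
    exact this.ne_zero
  have h1 : (ProjGenLinGroup.mk (g * uGL F 1) : PGL F) = ProjGenLinGroup.mk (uGL F 1 * g) := by
    rw [map_mul, map_mul]
    exact mul_inv_eq_iff_eq_mul.mp hh
  obtain ⟨l, hl, H⟩ := (mk_eq_iff F _ _).mp h1
  rw [Units.val_mul, Units.val_mul, hg, uGL_val] at H
  have e00 := congrFun (congrFun H 0) 0
  have e01 := congrFun (congrFun H 0) 1
  have e10 := congrFun (congrFun H 1) 0
  have e11 := congrFun (congrFun H 1) 1
  simp [Matrix.mul_apply, Fin.sum_univ_two] at e00 e01 e10 e11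
  have hc : c = 0 := by
    by_contra hc
    have hl1 : l = 1 := mul_right_cancel₀ hc (by rw [one_mul]; exact e10.symm)
    rw [hl1] at e11
    apply hc
    linear_combination -e11
  subst hc
  have hd : d ≠ 0 := by
    rintro rfl
    apply hdet
    ring
  have hl1 : l = 1 := by
    have : d * (1 - l) = 0 := by linear_combination e11
    rcases mul_eq_zero.mp this with h | h
    · exact absurd h hd
    · linear_combination -h
  rw [hl1] at e01
  have had : a = d := by linear_combination -e01
  subst had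
  rw [eps_mk, hg, Matrix.det_fin_two_of]
  have : a * a - b * 0 = a ^ 2 := by ring
  rw [this, quadraticChar_sq_one' hd]
  simp

lemma f0_one_ne [Fintype (PGL F)] : f0 F (u F 1) ≠ 0 := by
  classical
  have h1 : f0 F (u F 1) = ((Finset.univ.filter
      fun h : PGL F => h * u F 1 * h⁻¹ = u F 1).card : ℂ) := by
    unfold f0
    rw [Finset.card_eq_sum_ones, Finset.sum_filter, Nat.cast_sum]
    apply Finset.sum_congr rfl
    intro h _
    by_cases H : h * u F 1 * h⁻¹ = u F 1
    · rw [if_pos H, if_pos H, eps_centralizer F h H, Nat.cast_one]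
    · rw [if_neg H, if_neg H, Nat.cast_zero]
  rw [h1, Nat.cast_ne_zero]
  apply Finset.card_ne_zero_of_mem (a := (1 : PGL F))
  simp

lemma f0_u [Fintype (PGL F)] (hF : ringChar F ≠ 2) (t : F) :
    f0 F (u F t) = (quadraticChar F t : ℂ) * f0 F (u F 1) := by
  by_cases ht : t = 0
  · subst ht
    have hu : u F 0 = 1 := by
      show (ProjGenLinGroup.mk (uGL F 0) : PGL F) = 1
      have : uGL F 0 = 1 := by
        apply Units.ext
        rw [uGL_val, Units.val_one, Matrix.one_fin_two]
      rw [this, map_one]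
    rw [hu, quadraticChar_zero, Int.cast_zero, zero_mul]
    obtain ⟨k, hk⟩ := exists_comm_one F hF
    exact vanish F (f0_conj F) 1 k (by group) hk
  · have h1 := congrArg (f0 F) (u_conj F t ht)
    rw [h1, f0_conj, eps_mk, mat_val, Matrix.det_fin_two_of]
    simp

lemma sum_u [Fintype (PGL F)] (hF : ringChar F ≠ 2) : ∑ t : F, f0 F (u F t) = 0 := by
  have h1 : ∑ t : F, f0 F (u F t) = (∑ t : F, (quadraticChar F t : ℂ)) * f0 F (u F 1) := by
    rw [Finset.sum_mul]
    exact Finset.sum_congr rfl fun t _ => f0_u F hF t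
  have h2 : ∑ t : F, (quadraticChar F t : ℂ) = ((∑ t : F, quadraticChar F t : ℤ) : ℂ) := by
    push_cast
    rfl
  rw [h1, h2, quadraticChar_sum_zero hF, Int.cast_zero, zero_mul]

lemma u_add (s t : F) : u F s * u F t = u F (s + t) := by
  show (ProjGenLinGroup.mk (uGL F s) : PGL F) * ProjGenLinGroup.mk (uGL F t)
    = ProjGenLinGroup.mk (uGL F (s + t))
  rw [← map_mul]
  congr 1
  apply Units.ext
  rw [Units.val_mul, uGL_val, uGL_val, uGL_val]
  ext i j
  fin_cases i <;> fin_cases j <;> simp [Matrix.mul_apply, Fin.sum_univ_two, add_comm]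

omit [Fintype F] [DecidableEq F] in
lemma Obar_conj (h2 : (2 : F) ≠ 0) (k y : PGL F)
    (h : k * y * k⁻¹ ∈ Obar F (u (AlgebraicClosure F) 1)) :
    y ∈ Obar F (u (AlgebraicClosure F) 1) := by
  obtain ⟨k, rfl⟩ := ProjGenLinGroup.mk_surjective k
  obtain ⟨y, rfl⟩ := ProjGenLinGroup.mk_surjective y
  rw [← map_inv, ← map_mul, ← map_mul, mem_Obar_iff F h2, disc_conj] at h
  rw [mem_Obar_iff F h2]
  exact h

omit [Fintype F] [DecidableEq F] in
/-- A coset of a unipotent radical inside the unipotent variety is the radical itself. -/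
lemma coset_inside (h2 : (2 : F) ≠ 0) (g h : PGL F)
    (H : ∀ t, cosetPt F g h t ∈ Obar F (u (AlgebraicClosure F) 1)) :
    ∃ s, g = h * u F s * h⁻¹ := by
  obtain ⟨G, hG⟩ := ProjGenLinGroup.mk_surjective (h⁻¹ * g * h)
  have h1 : ∀ t, disc F (G * uGL F t : GL (Fin 2) F).val = 0 := by
    intro t
    rw [← mem_Obar_iff F h2]
    apply Obar_conj F h2 h
    have e : h * ProjGenLinGroup.mk (G * uGL F t) * h⁻¹ = cosetPt F g h t := by
      rw [map_mul, hG]
      show h * (h⁻¹ * g * h * u F t) * h⁻¹ = g * (h * u F t * h⁻¹)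
      group
    rw [e]
    exact H t
  obtain ⟨a, b, c, d, hg⟩ : ∃ a b c d : F, G.val = !![a, b; c, d] :=
    ⟨_, _, _, _, Matrix.eta_fin_two G.val⟩
  have hdet : a * d - b * c ≠ 0 := by
    have := (Matrix.isUnit_iff_isUnit_det _).mp G.isUnit
    rw [hg, Matrix.det_fin_two_of] at this
    exact this.ne_zero
  have h3 : ∀ t, (a + c * t + d) ^ 2 - 4 * (a * d - b * c) = 0 := by
    intro t
    have := h1 t
    rw [Units.val_mul, hg, uGL_val, disc_eq] at this
    simp [Matrix.mul_apply, Fin.sum_univ_two] at this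
    linear_combination this
  have hc : c = 0 := by
    by_contra hc
    have h4 := h3 (-(a + d) / c)
    have h5 : a + c * (-(a + d) / c) + d = 0 := by field_simp; ring
    rw [h5] at h4
    have : (2 : F) * 2 * (a * d - b * c) = 0 := by linear_combination -h4
    rcases mul_eq_zero.mp this with h | h
    · exact (mul_ne_zero h2 h2) h
    · exact hdet h
  subst hc
  have had : a = d := by
    have h4 := h3 0
    have : (a - d) ^ 2 = 0 := by linear_combination h4
    exact sub_eq_zero.mp (pow_eq_zero_iff (two_ne_zero) |>.mp this)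
  subst had
  have ha : a ≠ 0 := by
    rintro rfl
    apply hdet
    ring
  refine ⟨b / a, ?_⟩
  have h6 : u F (b / a) = ProjGenLinGroup.mk G := by
    apply (mk_eq_iff F _ _).mpr
    refine ⟨a, ha, ?_⟩
    rw [hg, uGL_val]
    ext i j
    fin_cases i <;> fin_cases j <;> simp <;> field_simp
  rw [h6, hG]
  group

/-- The function `f0` restricted to the unipotent variety is weakly cuspidal. -/
lemma weak_f0 [Fintype (PGL F)] (hF : ringChar F ≠ 2) :
    Weak F (u (AlgebraicClosure F) 1) (fun y => f0 F y.1) := by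
  intro g h H
  have h2 : (2 : F) ≠ 0 := Ring.two_ne_zero hF
  obtain ⟨s, rfl⟩ := coset_inside F h2 g h H
  show ∑ t : F, f0 F (cosetPt F (h * u F s * h⁻¹) h t) = 0
  have h1 : ∀ t, f0 F (cosetPt F (h * u F s * h⁻¹) h t) = eps F h * f0 F (u F (s + t)) := by
    intro t
    have e : cosetPt F (h * u F s * h⁻¹) h t = h * u F (s + t) * h⁻¹ := by
      rw [← u_add]
      show h * u F s * h⁻¹ * (h * u F t * h⁻¹) = h * (u F s * u F t) * h⁻¹
      group
    rw [e, f0_conj]
  rw [Finset.sum_congr rfl fun t _ => h1 t, ← Finset.mul_sum]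
  have h3 : ∑ t : F, f0 F (u F (s + t)) = ∑ t : F, f0 F (u F t) :=
    Fintype.sum_equiv (Equiv.addLeft s) _ _ fun t => rfl
  rw [h3, sum_u F hF, mul_zero]

lemma not_restriction [Fintype (PGL F)] (hF : Fintype.card F % 4 = 1) :
    ¬ IsRestriction F (u (AlgebraicClosure F) 1) (fun y => f0 F y.1) := by
  classical
  have hchar : ringChar F ≠ 2 := by
    intro h
    have := FiniteField.even_card_of_char_two h
    omega
  have h2 : (2 : F) ≠ 0 := Ring.two_ne_zero hchar
  have hneg : quadraticChar F (-1) = 1 := by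
    rw [quadraticChar_one_iff_isSquare (neg_ne_zero.mpr one_ne_zero),
      FiniteField.isSquare_neg_one_iff]
    omega
  rintro ⟨Φ, hcusp, hres⟩
  have hres' : ∀ y ∈ Obar F (u (AlgebraicClosure F) 1), f0 F y = Φ y := fun y hy => hres ⟨y, hy⟩
  -- the averaged function
  obtain ⟨Ψ, hΨ⟩ : ∃ Ψ : PGL F → ℂ, ∀ g, Ψ g = ∑ h : PGL F, eps F h * Φ (h * g * h⁻¹) :=
    ⟨_, fun _ => rfl⟩
  have hconj : ∀ k g, Ψ (k * g * k⁻¹) = eps F k * Ψ g := by
    intro k g
    rw [hΨ, hΨ, Finset.mul_sum]
    apply Fintype.sum_equiv (Equiv.mulRight k)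
    intro h
    rw [Equiv.coe_mulRight, eps_mul]
    have e : h * (k * g * k⁻¹) * h⁻¹ = h * k * g * (h * k)⁻¹ := by group
    rw [e]
    linear_combination (-(eps F h * Φ (h * k * g * (h * k)⁻¹))) * eps_sq F k
  have hout : ∀ g : GL (Fin 2) F, disc F g.val ≠ 0 → Ψ (ProjGenLinGroup.mk g) = 0 := by
    intro g hg
    obtain ⟨k, hk1, hk2⟩ := exists_comm F hchar g hg
    exact vanish F hconj _ k hk1 hk2
  have hin : ∀ g ∈ Obar F (u (AlgebraicClosure F) 1),
      Ψ g = (Fintype.card (PGL F) : ℂ) * f0 F g := by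
    intro g hg
    rw [hΨ]
    have h1 : ∀ h : PGL F, eps F h * Φ (h * g * h⁻¹) = f0 F g := by
      intro h
      have hmem : h * g * h⁻¹ ∈ Obar F (u (AlgebraicClosure F) 1) := by
        apply Obar_conj F h2 h⁻¹
        have e : h⁻¹ * (h * g * h⁻¹) * h⁻¹⁻¹ = g := by group
        rw [e]
        exact hg
      rw [← hres' _ hmem, f0_conj, ← mul_assoc, eps_sq, one_mul]
    rw [Finset.sum_congr rfl fun h _ => h1 h, Finset.sum_const, nsmul_eq_mul, Finset.card_univ]
  -- the Weyl element
  have hW : (0 : F) * 0 - (-1) * 1 ≠ 0 := by simp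
  have hsum : ∑ t : F, Ψ (ProjGenLinGroup.mk (mat F 0 (-1) 1 0 hW * uGL F t)) = 0 := by
    have h1 : ∀ t : F, Ψ (ProjGenLinGroup.mk (mat F 0 (-1) 1 0 hW * uGL F t))
        = ∑ h : PGL F, eps F h
          * Φ (cosetPt F (h * ProjGenLinGroup.mk (mat F 0 (-1) 1 0 hW) * h⁻¹) h t) := by
      intro t
      rw [hΨ]
      apply Finset.sum_congr rfl
      intro h _
      congr 2
      rw [map_mul]
      show h * (ProjGenLinGroup.mk (mat F 0 (-1) 1 0 hW) * u F t) * h⁻¹
        = h * ProjGenLinGroup.mk (mat F 0 (-1) 1 0 hW) * h⁻¹ * (h * u F t * h⁻¹)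
      group
    rw [Finset.sum_congr rfl fun t _ => h1 t, Finset.sum_comm]
    apply Finset.sum_eq_zero
    intro h _
    rw [← Finset.mul_sum, hcusp, mul_zero]
  have hval : ∀ t : F, (mat F 0 (-1) 1 0 hW * uGL F t : GL (Fin 2) F).val
      = !![0, -1; 1, t] := by
    intro t
    rw [Units.val_mul, mat_val, uGL_val]
    ext i j
    fin_cases i <;> fin_cases j <;> simp [Matrix.mul_apply, Fin.sum_univ_two]
  have hdisc : ∀ t : F, disc F (mat F 0 (-1) 1 0 hW * uGL F t : GL (Fin 2) F).val
      = (t - 2) * (t + 2) := by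
    intro t
    rw [hval, disc_of]
    ring
  have hne : (2 : F) ≠ -2 := by
    intro h
    have : (2 : F) * 2 = 0 := by linear_combination h
    exact (mul_ne_zero h2 h2) this
  have hzero : ∀ t : F, t ≠ 2 → t ≠ -2 →
      Ψ (ProjGenLinGroup.mk (mat F 0 (-1) 1 0 hW * uGL F t)) = 0 := by
    intro t ht1 ht2
    apply hout
    rw [hdisc]
    apply mul_ne_zero
    · exact sub_ne_zero.mpr ht1
    · intro h
      exact ht2 (eq_neg_of_add_eq_zero_left h)
  have hsum2 : Ψ (ProjGenLinGroup.mk (mat F 0 (-1) 1 0 hW * uGL F 2))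
      + Ψ (ProjGenLinGroup.mk (mat F 0 (-1) 1 0 hW * uGL F (-2))) = 0 := by
    rw [← hsum, ← Finset.sum_pair
      (f := fun t : F => Ψ (ProjGenLinGroup.mk (mat F 0 (-1) 1 0 hW * uGL F t))) hne]
    apply Finset.sum_subset (Finset.subset_univ _)
    intro t _ ht
    simp only [Finset.mem_insert, Finset.mem_singleton, not_or] at ht
    exact hzero t ht.1 ht.2
  have hδ : (1 : F) * (-1) - 0 * 0 ≠ 0 := by simp
  have hconj2 : (ProjGenLinGroup.mk (mat F 0 (-1) 1 0 hW * uGL F (-2)) : PGL F)
      = ProjGenLinGroup.mk (mat F 1 0 0 (-1) hδ)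
        * ProjGenLinGroup.mk (mat F 0 (-1) 1 0 hW * uGL F 2)
        * (ProjGenLinGroup.mk (mat F 1 0 0 (-1) hδ))⁻¹ := by
    apply eq_conj_of_mul F (c := -1) (neg_ne_zero.mpr one_ne_zero)
    rw [Units.val_mul (mat F 1 0 0 (-1) hδ), Units.val_mul _ (mat F 1 0 0 (-1) hδ), hval, hval,
      mat_val]
    ext i j
    fin_cases i <;> fin_cases j <;> simp [Matrix.mul_apply, Fin.sum_univ_two]
  have heps1 : eps F (ProjGenLinGroup.mk (mat F 1 0 0 (-1) hδ)) = 1 := by
    rw [eps_mk, mat_val, Matrix.det_fin_two_of]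
    simp [hneg]
  rw [hconj2, hconj, heps1, one_mul] at hsum2
  have hΨ0 : Ψ (ProjGenLinGroup.mk (mat F 0 (-1) 1 0 hW * uGL F 2)) = 0 := by
    have : (2 : ℂ) * Ψ (ProjGenLinGroup.mk (mat F 0 (-1) 1 0 hW * uGL F 2)) = 0 := by
      linear_combination hsum2
    simpa using this
  have hmem : ProjGenLinGroup.mk (mat F 0 (-1) 1 0 hW * uGL F 2)
      ∈ Obar F (u (AlgebraicClosure F) 1) := by
    rw [mem_Obar_iff F h2, hdisc]
    ring
  rw [hin _ hmem] at hΨ0
  have hk : (-1 : F) * 0 - 1 * 1 ≠ 0 := by simp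
  have hconj3 : (ProjGenLinGroup.mk (mat F 0 (-1) 1 0 hW * uGL F 2) : PGL F)
      = ProjGenLinGroup.mk (mat F (-1) 1 1 0 hk) * u F 1
        * (ProjGenLinGroup.mk (mat F (-1) 1 1 0 hk))⁻¹ := by
    apply eq_conj_of_mul F (c := 1) one_ne_zero
    rw [one_smul, Units.val_mul (mat F (-1) 1 1 0 hk), Units.val_mul _ (mat F (-1) 1 1 0 hk),
      hval, mat_val, uGL_val]
    ext i j
    fin_cases i <;> fin_cases j <;> simp [Matrix.mul_apply, Fin.sum_univ_two]
    norm_num
  have heps3 : eps F (ProjGenLinGroup.mk (mat F (-1) 1 1 0 hk)) = 1 := by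
    rw [eps_mk, mat_val, Matrix.det_fin_two_of]
    simp [hneg]
  rw [hconj3, f0_conj, heps3, one_mul] at hΨ0
  rcases mul_eq_zero.mp hΨ0 with h | h
  · rw [Nat.cast_eq_zero] at h
    exact Fintype.card_ne_zero h
  · exact f0_one_ne F h

end Main

/-- For every finite field `F` with `|F| ≡ 1 mod 4`, on the closure of the regular unipotent class
of `PGL₂` there is a weakly cuspidal function which is not the restriction of a cuspidal
function. -/
theorem result (F : Type) [Field F] [Fintype F] (hF : Fintype.card F % 4 = 1) :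
    ∃ f : Obar F (u (AlgebraicClosure F) 1) → ℂ,
      Weak F (u (AlgebraicClosure F) 1) f ∧ ¬ IsRestriction F (u (AlgebraicClosure F) 1) f := by
  classical
  have : Finite (PGL F) := finite_PGL F
  have : Fintype (PGL F) := Fintype.ofFinite _
  have hchar : ringChar F ≠ 2 := by
    intro h
    have := FiniteField.even_card_of_char_two h
    omega
  exact ⟨fun y => f0 F y.1, weak_f0 F hchar, not_restriction F hF⟩

end Pool.Agent.Results.MP_21a573_al.PglUnipotent
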